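import Pool.Agent.Lib_helper11.CancelRO
import Pool.Agent.Lib_helper2.Eq2Main

/-!
MP_95d7dd_gt, Q1: cancellation by 2 holds for equidecomposability types of bounded regular-open
sets in `ℝⁿ` for every `n ≥ 1`; in particular for `n = 1` and for `n = 2`.
-/

namespace Pool.Agent.Results.MP_95d7dd_gt.CancelByTwo

open _root_.Canc

/-- For every `n ≥ 1` and all bounded regular-open `A, B ⊆ ℝⁿ`: if `2[A] = 2[B]`, that is, if
`A ∪ (a + A) ∼ B ∪ (b + B)` for translation vectors `a, b` such that `a + A` is at positive
distance from `A` and `b + B` is at positive distance from `B`, then `A ∼ B`. -/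
theorem result (n : ℕ) (hn : 1 ≤ n) (A B : Set (E n)) (hA : A ∈ RO n) (hB : B ∈ RO n)
    (a b : E n) (ha : PosDist A (shift a A)) (hb : PosDist B (shift b B))
    (h : Equidec n (A ∪ shift a A) (B ∪ shift b B)) : Equidec n A B :=
  cancel_of_transp (fun A B hA hB hAb hBb h => Eq2.main_sets hn A B hA hB hAb hBb h)
    A B hA hB a b ha hb h

end Pool.Agent.Results.MP_95d7dd_gt.CancelByTwo
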